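import Pool.Agent.Helper58.FL.Tools

/-! Trivial fibrations of simplicial sets. -/

open CategoryTheory MonoidalCategory CartesianMonoidalCategory Simplicial Opposite
  HomotopicalAlgebra Limits

set_option autoImplicit false

namespace Pool.Agent.Helper45.FL2

open FL SSet SSet.modelCategoryQuillen

universe u

/-- Constructor for homotopies. -/
theorem htpy_mk {X Y : SSet.{u}} {f g : X ⟶ Y} (h : X ⊗ Δ[1] ⟶ Y) (h₀ : SSet.ι₀ ≫ h = f)
    (h₁ : SSet.ι₁ ≫ h = g) : Htpy f g :=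
  ⟨{ h := h
     h₀ := h₀
     h₁ := h₁
     rel := by
      ext m ⟨⟨x, hx⟩, _⟩
      exact hx.elim }⟩

theorem htpy_elim {X Y : SSet.{u}} {f g : X ⟶ Y} (H : Htpy f g) :
    ∃ h : X ⊗ Δ[1] ⟶ Y, SSet.ι₀ ≫ h = f ∧ SSet.ι₁ ≫ h = g := by
  obtain ⟨H⟩ := H
  exact ⟨H.h, H.h₀, H.h₁⟩

theorem htpy_refl {X Y : SSet.{u}} (f : X ⟶ Y) : Htpy f f :=
  htpy_mk (fst _ _ ≫ f) (by rw [← Category.assoc, ι₀_fst, Category.id_comp])
    (by rw [← Category.assoc, ι₁_fst, Category.id_comp])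

theorem fin2 : ∀ a : Fin (1 + 1), a = 0 ∨ a = 1 := by decide

theorem horn_ι_const : (Λ[1, 0] : (Δ[1] : SSet.{u}).Subcomplex).ι =
    SSet.const (stdSimplex.obj₀Equiv.{u}.symm 0) := by
  ext ⟨m⟩ ⟨s, hs⟩
  induction m using SimplexCategory.rec with | _ m =>
  refine SSet.stdSimplex.ext _ _ fun i => ?_
  have h : s i ≠ 1 := by
    intro hi
    rw [mem_horn_iff_notMem_range] at hs
    obtain ⟨j, hj, hj'⟩ := hs
    apply hj'
    refine ⟨i, ?_⟩
    rw [hi]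
    exact ((fin2 j).resolve_left hj).symm
  exact (fin2 (s i)).resolve_right h

/-- the chosen vertex -/
theorem whisk {X : SSet.{u}} : X ◁ (Λ[1, 0] : (Δ[1] : SSet.{u}).Subcomplex).ι =
    fst _ _ ≫ SSet.ι₀ := by
  refine CartesianMonoidalCategory.hom_ext _ _ ?_ ?_
  · rw [whiskerLeft_fst, Category.assoc, ι₀_fst, Category.comp_id]
  · rw [whiskerLeft_snd, Category.assoc, ι₀_snd, horn_ι_const, comp_const, comp_const]

theorem whisk_δ_one {X : SSet.{u}} : X ◁ (stdSimplex.{u}.δ (1 : Fin 2)) =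
    fst _ _ ≫ SSet.ι₀ := by
  refine CartesianMonoidalCategory.hom_ext _ _ ?_ ?_
  · rw [whiskerLeft_fst, Category.assoc, ι₀_fst, Category.comp_id]
  · rw [whiskerLeft_snd, Category.assoc, ι₀_snd, stdSimplex.δ_one_eq_const, comp_const, comp_const]

theorem exists_sec {X : SSet.{u}} : ∃ j : X ⟶ X ⊗ (Λ[1, 0] : SSet.{u}), j ≫ fst _ _ = 𝟙 X := by
  refine ⟨lift (𝟙 X) (SSet.const ⟨stdSimplex.obj₀Equiv.{u}.symm 0, ?_⟩), lift_fst _ _⟩
  rw [mem_horn_iff_notMem_range]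
  refine ⟨1, by decide, ?_⟩
  rintro ⟨i, hi⟩
  have h0 : (0 : Fin (1 + 1)) = 1 := hi
  exact absurd h0 (by decide)

/-- Relative path lifting. -/
theorem rel_path {X E B : SSet.{u}} (p : E ⟶ B) [Fibration p] (A : X.Subcomplex)
    (h : X ⊗ Δ[1] ⟶ B) (f : X ⟶ E) (k : (A : SSet.{u}) ⊗ Δ[1] ⟶ E)
    (h1 : f ≫ p = SSet.ι₀ ≫ h) (h2 : k ≫ p = A.ι ▷ _ ≫ h) (h3 : SSet.ι₀ ≫ k = A.ι ≫ f) :
    ∃ h' : X ⊗ Δ[1] ⟶ E, h' ≫ p = h ∧ SSet.ι₀ ≫ h' = f ∧ A.ι ▷ _ ≫ h' = k := by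
  have hA : anodyneExtensions (A.unionProd Λ[1, 0]).ι :=
    anodyneExtensions_unionProd_ι A _ (anodyneExtensions.horn_ι 0)
  have hp : (fibrations SSet.{u}) p := (HomotopicalAlgebra.fibration_iff p).1 inferInstance
  have hlp := hA p hp
  have hpo := Subcomplex.unionProd.isPushout A (Λ[1, 0] : (Δ[1] : SSet.{u}).Subcomplex)
  have w : A.ι ▷ (Λ[1, 0] : SSet.{u}) ≫ fst _ _ ≫ f =
      (A : SSet.{u}) ◁ (Λ[1, 0] : (Δ[1] : SSet.{u}).Subcomplex).ι ≫ k := by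
    rw [whisk, whiskerRight_fst_assoc, Category.assoc, h3]
  have hsq : CommSq (hpo.desc (fst _ _ ≫ f) k w) (A.unionProd Λ[1, 0]).ι p h := ⟨by
    apply hpo.hom_ext
    · rw [← Category.assoc, hpo.inl_desc, ← Category.assoc, Subcomplex.unionProd.ι₁_ι, whisk,
        Category.assoc, Category.assoc, h1]
    · rw [← Category.assoc, hpo.inr_desc, ← Category.assoc, Subcomplex.unionProd.ι₂_ι, h2]⟩
  refine ⟨hsq.lift, hsq.fac_right, ?_, ?_⟩
  · have h4 : X ◁ (Λ[1, 0] : (Δ[1] : SSet.{u}).Subcomplex).ι ≫ hsq.lift = fst _ _ ≫ f := by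
      rw [← Subcomplex.unionProd.ι₁_ι A, Category.assoc, hsq.fac_left, hpo.inl_desc]
    rw [whisk, Category.assoc] at h4
    obtain ⟨j, hj⟩ := exists_sec (X := X)
    rw [← cancel_epi (𝟙 X), ← hj, Category.assoc, Category.assoc, h4]
  · rw [← Subcomplex.unionProd.ι₂_ι A, Category.assoc, hsq.fac_left, hpo.inr_desc]

/-- Filling of the horn `Λ[2, 0]` in spaces of maps. -/
theorem horn_fill {X E B : SSet.{u}} (p : E ⟶ B) [Fibration p] (e₁ e₂ : X ⊗ Δ[1] ⟶ E)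
    (b : X ⊗ Δ[2] ⟶ B) (h : SSet.ι₀ ≫ e₁ = SSet.ι₀ ≫ e₂)
    (h₁ : X ◁ stdSimplex.δ (2 : Fin 3) ≫ b = e₁ ≫ p)
    (h₂ : X ◁ stdSimplex.δ (1 : Fin 3) ≫ b = e₂ ≫ p) :
    ∃ l : X ⊗ Δ[2] ⟶ E, X ◁ stdSimplex.δ (2 : Fin 3) ≫ l = e₁ ∧
      X ◁ stdSimplex.δ (1 : Fin 3) ≫ l = e₂ ∧ l ≫ p = b := by
  have w : stdSimplex.{u}.δ (1 : Fin 2) ≫ MonoidalClosed.curry e₁ =
      stdSimplex.{u}.δ (1 : Fin 2) ≫ MonoidalClosed.curry e₂ := by
    rw [← MonoidalClosed.curry_natural_left, ← MonoidalClosed.curry_natural_left, whisk_δ_one,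
      Category.assoc, Category.assoc, h]
  have hpo := horn₂₀.isPushout.{u}
  have i1 : horn₂₀.ι₀₁.{u} ≫ Λ[2, 0].ι = stdSimplex.δ (2 : Fin 3) := horn.ι_ι _ _ _
  have i2 : horn₂₀.ι₀₂.{u} ≫ Λ[2, 0].ι = stdSimplex.δ (1 : Fin 3) := horn.ι_ι _ _ _
  have hsq : CommSq (hpo.desc (MonoidalClosed.curry e₁) (MonoidalClosed.curry e₂) w)
      Λ[2, 0].ι ((ihom X).map p) (MonoidalClosed.curry b) := ⟨by
    apply hpo.hom_ext
    · rw [← Category.assoc, hpo.inl_desc, ← MonoidalClosed.curry_natural_right, ← h₁,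
        MonoidalClosed.curry_natural_left, ← i1, Category.assoc]
    · rw [← Category.assoc, hpo.inr_desc, ← MonoidalClosed.curry_natural_right, ← h₂,
        MonoidalClosed.curry_natural_left, ← i2, Category.assoc]⟩
  refine ⟨MonoidalClosed.uncurry hsq.lift, ?_, ?_, ?_⟩
  · rw [← MonoidalClosed.uncurry_natural_left, ← i1, Category.assoc, hsq.fac_left, hpo.inl_desc,
      MonoidalClosed.uncurry_curry]
  · rw [← MonoidalClosed.uncurry_natural_left, ← i2, Category.assoc, hsq.fac_left, hpo.inr_desc,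
      MonoidalClosed.uncurry_curry]
  · rw [← MonoidalClosed.uncurry_natural_right, hsq.fac_right, MonoidalClosed.uncurry_curry]

theorem ends₀ {X : SSet.{u}} : SSet.ι₀ ≫ X ◁ stdSimplex.{u}.δ (0 : Fin 3) =
    SSet.ι₁ ≫ X ◁ stdSimplex.{u}.δ (2 : Fin 3) := by
  refine CartesianMonoidalCategory.hom_ext _ _ ?_ ?_
  · rw [Category.assoc, Category.assoc, whiskerLeft_fst, whiskerLeft_fst, ι₀_fst, ι₁_fst]
  · rw [Category.assoc, Category.assoc, whiskerLeft_snd, whiskerLeft_snd, ← Category.assoc,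
      ← Category.assoc, ι₀_snd, ι₁_snd, const_comp, const_comp]
    congr 1

theorem ends₁ {X : SSet.{u}} : SSet.ι₁ ≫ X ◁ stdSimplex.{u}.δ (0 : Fin 3) =
    SSet.ι₁ ≫ X ◁ stdSimplex.{u}.δ (1 : Fin 3) := by
  refine CartesianMonoidalCategory.hom_ext _ _ ?_ ?_
  · rw [Category.assoc, Category.assoc, whiskerLeft_fst, whiskerLeft_fst]
  · rw [Category.assoc, Category.assoc, whiskerLeft_snd, whiskerLeft_snd, ← Category.assoc,
      ← Category.assoc, ι₁_snd, const_comp, const_comp]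
    congr 1

/-- The third edge of a horn. -/
theorem horn_edge {X E B : SSet.{u}} (p : E ⟶ B) [Fibration p] (e₁ e₂ : X ⊗ Δ[1] ⟶ E)
    (b : X ⊗ Δ[2] ⟶ B) (h : SSet.ι₀ ≫ e₁ = SSet.ι₀ ≫ e₂)
    (h₁ : X ◁ stdSimplex.δ (2 : Fin 3) ≫ b = e₁ ≫ p)
    (h₂ : X ◁ stdSimplex.δ (1 : Fin 3) ≫ b = e₂ ≫ p) :
    ∃ H : X ⊗ Δ[1] ⟶ E, SSet.ι₀ ≫ H = SSet.ι₁ ≫ e₁ ∧ SSet.ι₁ ≫ H = SSet.ι₁ ≫ e₂ ∧
      H ≫ p = X ◁ stdSimplex.δ (0 : Fin 3) ≫ b := by
  obtain ⟨l, hl₁, hl₂, hl₃⟩ := horn_fill p e₁ e₂ b h h₁ h₂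
  refine ⟨X ◁ stdSimplex.δ (0 : Fin 3) ≫ l, ?_, ?_, ?_⟩
  · rw [← Category.assoc, ends₀, Category.assoc, hl₁]
  · rw [← Category.assoc, ends₁, Category.assoc, hl₂]
  · rw [Category.assoc, hl₃]

theorem boundary_const {m : SimplexCategoryᵒᵖ} (s : (∂Δ[1] : SSet.{u}).obj m)
    (i j : Fin (m.unop.len + 1)) :
    stdSimplex.asOrderHom s.1 i = stdSimplex.asOrderHom s.1 j := by
  have hs : ¬ Function.Surjective (stdSimplex.asOrderHom s.1) := s.2
  by_contra hne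
  apply hs
  intro b
  rcases fin2 (stdSimplex.asOrderHom s.1 i) with h1 | h1 <;>
    rcases fin2 (stdSimplex.asOrderHom s.1 j) with h2 | h2 <;> rcases fin2 b with h3 | h3
  · exact absurd (h1.trans h2.symm) hne
  · exact absurd (h1.trans h2.symm) hne
  · exact ⟨i, h1.trans h3.symm⟩
  · exact ⟨j, h2.trans h3.symm⟩
  · exact ⟨j, h2.trans h3.symm⟩
  · exact ⟨i, h1.trans h3.symm⟩
  · exact absurd (h1.trans h2.symm) hne
  · exact absurd (h1.trans h2.symm) hne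

open Classical in
/-- The map given by two maps on the ends. -/
noncomputable def two {X Y : SSet.{u}} (f g : X ⟶ Y) : X ⊗ (∂Δ[1] : SSet.{u}) ⟶ Y where
  app m := ↾ fun z => if stdSimplex.asOrderHom z.2.1 0 = 0 then f.app m z.1 else g.app m z.1
  naturality m n α := by
    ext ⟨x, s⟩
    have h1 : stdSimplex.asOrderHom (((∂Δ[1] : SSet.{u}).map α s).1) 0 =
        stdSimplex.asOrderHom s.1 0 := boundary_const s _ _
    change (if stdSimplex.asOrderHom (((∂Δ[1] : SSet.{u}).map α s).1) 0 = 0 then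
      f.app n (X.map α x) else g.app n (X.map α x)) =
      Y.map α (if stdSimplex.asOrderHom s.1 0 = 0 then f.app m x else g.app m x)
    rw [h1]
    split_ifs
    · exact NatTrans.naturality_apply f α x
    · exact NatTrans.naturality_apply g α x

theorem obj₀_mem (i : Fin (1 + 1)) :
    stdSimplex.obj₀Equiv.{u}.symm i ∈ (∂Δ[1] : (Δ[1] : SSet.{u}).Subcomplex).obj (op ⦋0⦌) := by
  rw [boundary_obj_eq_univ 0 1 (by decide)]
  trivial

/-- the ends of the cylinder -/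
noncomputable def en (X : SSet.{u}) (i : Fin (1 + 1)) : X ⟶ X ⊗ (∂Δ[1] : SSet.{u}) :=
  CartesianMonoidalCategory.lift (𝟙 X) (SSet.const ⟨stdSimplex.obj₀Equiv.{u}.symm i, obj₀_mem i⟩)

theorem en_zero (X : SSet.{u}) : en X 0 ≫ X ◁ (∂Δ[1] : (Δ[1] : SSet.{u}).Subcomplex).ι =
    SSet.ι₀ := by
  refine CartesianMonoidalCategory.hom_ext _ _ ?_ ?_
  · rw [Category.assoc, whiskerLeft_fst, en, lift_fst, ι₀_fst]
  · rw [Category.assoc, whiskerLeft_snd, en, lift_snd_assoc, ι₀_snd, const_comp]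
    rfl

theorem en_one (X : SSet.{u}) : en X 1 ≫ X ◁ (∂Δ[1] : (Δ[1] : SSet.{u}).Subcomplex).ι =
    SSet.ι₁ := by
  refine CartesianMonoidalCategory.hom_ext _ _ ?_ ?_
  · rw [Category.assoc, whiskerLeft_fst, en, lift_fst, ι₁_fst]
  · rw [Category.assoc, whiskerLeft_snd, en, lift_snd_assoc, ι₁_snd, const_comp]
    rfl

theorem en_zero_two {X Y : SSet.{u}} (f g : X ⟶ Y) : en X 0 ≫ two f g = f := by
  ext m x
  refine Eq.trans (b := if stdSimplex.asOrderHom ((en X 0).app m x).2.1 0 = 0 then f.app m x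
    else g.app m x) rfl (if_pos rfl)

theorem en_one_two {X Y : SSet.{u}} (f g : X ⟶ Y) : en X 1 ≫ two f g = g := by
  ext m x
  refine Eq.trans (b := if stdSimplex.asOrderHom ((en X 1).app m x).2.1 0 = 0 then f.app m x
    else g.app m x) rfl (if_neg ?_)
  intro h
  have h0 : (1 : Fin (1 + 1)) = 0 := h
  exact absurd h0 (by decide)

theorem two_comp {X Y Z : SSet.{u}} (f g : X ⟶ Y) (p : Y ⟶ Z) (q : X ⟶ Z) (hf : f ≫ p = q)
    (hg : g ≫ p = q) : two f g ≫ p = fst _ _ ≫ q := by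
  ext m ⟨x, s⟩
  change p.app m (if stdSimplex.asOrderHom s.1 0 = 0 then f.app m x else g.app m x) = q.app m x
  split_ifs
  · rw [← hf]; rfl
  · rw [← hg]; rfl

theorem TrivFib.lift {E B : SSet.{0}} {p : E ⟶ B} (hp : TrivFib p) {K L : SSet.{0}} (i : K ⟶ L)
    [Mono i] : HasLiftingProperty i p := by
  have h1 : I.{0}.rlp p := by
    rintro _ _ _ ⟨n⟩
    exact hp n
  rw [← rlp_monomorphisms] at h1
  exact h1 i (MorphismProperty.monomorphisms.infer_property _)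

theorem mono_whiskerLeft (X : SSet.{u}) {K L : SSet.{u}} (i : K ⟶ L) [Mono i] :
    Mono (X ◁ i) := by
  constructor
  intro Z g h w
  refine CartesianMonoidalCategory.hom_ext _ _ ?_ ?_
  · have := congr($w ≫ fst _ _)
    simpa only [Category.assoc, whiskerLeft_fst] using this
  · have := congr($w ≫ snd _ _)
    simp only [Category.assoc, whiskerLeft_snd] at this
    rw [← cancel_mono i, Category.assoc, Category.assoc, this]

theorem TrivFib.hoEq {E B : SSet.{0}} {p : E ⟶ B} (hp : TrivFib p) : HoEq p := by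
  have h1 := TrivFib.lift hp (⊥ : B.Subcomplex).ι
  have sq : CommSq (Subcomplex.isInitialBot.to E) (⊥ : B.Subcomplex).ι p (𝟙 B) :=
    ⟨Subcomplex.isInitialBot.hom_ext _ _⟩
  have hm := mono_whiskerLeft E (∂Δ[1] : (Δ[1] : SSet.{0}).Subcomplex).ι
  have h2 := TrivFib.lift hp (E ◁ (∂Δ[1] : (Δ[1] : SSet.{0}).Subcomplex).ι)
  have sq' : CommSq (two (p ≫ sq.lift) (𝟙 E)) (E ◁ (∂Δ[1] : (Δ[1] : SSet.{0}).Subcomplex).ι) p
      (fst _ _ ≫ p) := ⟨by
    rw [two_comp _ _ p p (by rw [Category.assoc, sq.fac_right, Category.comp_id])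
      (Category.id_comp _), whiskerLeft_fst_assoc]⟩
  refine ⟨sq.lift, htpy_mk sq'.lift ?_ ?_, ?_⟩
  · rw [← en_zero, Category.assoc, sq'.fac_left, en_zero_two]
  · rw [← en_one, Category.assoc, sq'.fac_left, en_one_two]
  · rw [sq.fac_right]
    exact htpy_refl _

theorem TrivFib.kanFib {E B : SSet.{0}} {p : E ⟶ B} (hp : TrivFib p) : KanFib p :=
  fun _ _ => TrivFib.lift hp _

theorem fibration_of_kanFib {E B : SSet.{0}} {p : E ⟶ B} (hp : KanFib p) : Fibration p := by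
  rw [SSet.modelCategoryQuillen.fibration_iff]
  rintro _ _ _ h
  simp only [J, MorphismProperty.iSup_iff] at h
  obtain ⟨n, ⟨i⟩⟩ := h
  exact hp n i

theorem ι₀_nat {X Y : SSet.{u}} (f : X ⟶ Y) : SSet.ι₀ ≫ f ▷ Δ[1] = f ≫ SSet.ι₀ := by
  refine CartesianMonoidalCategory.hom_ext _ _ ?_ ?_
  · rw [Category.assoc, Category.assoc, whiskerRight_fst, ι₀_fst_assoc, ι₀_fst, Category.comp_id]
  · rw [Category.assoc, Category.assoc, whiskerRight_snd, ι₀_snd, ι₀_snd, comp_const]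

theorem ι₁_nat {X Y : SSet.{u}} (f : X ⟶ Y) : SSet.ι₁ ≫ f ▷ Δ[1] = f ≫ SSet.ι₁ := by
  refine CartesianMonoidalCategory.hom_ext _ _ ?_ ?_
  · rw [Category.assoc, Category.assoc, whiskerRight_fst, ι₁_fst_assoc, ι₁_fst, Category.comp_id]
  · rw [Category.assoc, Category.assoc, whiskerRight_snd, ι₁_snd, ι₁_snd, comp_const]

theorem whisk_δ_zero {X : SSet.{u}} : X ◁ (stdSimplex.{u}.δ (0 : Fin 2)) =
    fst _ _ ≫ SSet.ι₁ := by
  refine CartesianMonoidalCategory.hom_ext _ _ ?_ ?_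
  · rw [whiskerLeft_fst, Category.assoc, ι₁_fst, Category.comp_id]
  · rw [whiskerLeft_snd, Category.assoc, ι₁_snd, stdSimplex.δ_zero_eq_const, comp_const, comp_const]

theorem collapse {X : SSet.{u}} : X ◁ stdSimplex.{u}.δ (0 : Fin 3) ≫
    X ◁ stdSimplex.{u}.σ (1 : Fin 2) = fst _ _ ≫ SSet.ι₁ := by
  rw [← MonoidalCategory.whiskerLeft_comp]
  have h : stdSimplex.{u}.δ (0 : Fin 3) ≫ stdSimplex.{u}.σ (1 : Fin 2) =
      stdSimplex.{u}.σ (0 : Fin 1) ≫ stdSimplex.{u}.δ (0 : Fin 2) :=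
    stdSimplex.{u}.δ_comp_σ_of_le (i := (0 : Fin 2)) (j := (0 : Fin 1)) le_rfl
  rw [h, stdSimplex.δ_zero_eq_const, comp_const]
  refine CartesianMonoidalCategory.hom_ext _ _ ?_ ?_
  · rw [whiskerLeft_fst, Category.assoc, ι₁_fst, Category.comp_id]
  · rw [whiskerLeft_snd, Category.assoc, ι₁_snd, comp_const, comp_const]

theorem edge_two {X : SSet.{u}} : X ◁ stdSimplex.{u}.δ (2 : Fin 3) ≫
    X ◁ stdSimplex.{u}.σ (1 : Fin 2) = 𝟙 _ := by
  rw [← MonoidalCategory.whiskerLeft_comp]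
  have h : stdSimplex.{u}.δ (2 : Fin 3) ≫ stdSimplex.{u}.σ (1 : Fin 2) = 𝟙 _ :=
    stdSimplex.{u}.δ_comp_σ_succ (i := (1 : Fin 2))
  rw [h, MonoidalCategory.whiskerLeft_id]

theorem edge_one {X : SSet.{u}} : X ◁ stdSimplex.{u}.δ (1 : Fin 3) ≫
    X ◁ stdSimplex.{u}.σ (1 : Fin 2) = 𝟙 _ := by
  rw [← MonoidalCategory.whiskerLeft_comp]
  have h : stdSimplex.{u}.δ (1 : Fin 3) ≫ stdSimplex.{u}.σ (1 : Fin 2) = 𝟙 _ :=
    stdSimplex.{u}.δ_comp_σ_self (i := (1 : Fin 2))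
  rw [h, MonoidalCategory.whiskerLeft_id]

/-- Relative homotopy lifting starting from nothing. -/
theorem path_lift {X E B : SSet.{u}} (p : E ⟶ B) [Fibration p] (h : X ⊗ Δ[1] ⟶ B) (f : X ⟶ E)
    (h1 : f ≫ p = SSet.ι₀ ≫ h) :
    ∃ h' : X ⊗ Δ[1] ⟶ E, h' ≫ p = h ∧ SSet.ι₀ ≫ h' = f := by
  obtain ⟨h', a, b, -⟩ := rel_path p (⊥ : X.Subcomplex) h f
    (fst _ _ ≫ Subcomplex.isInitialBot.to E) h1 (by
      ext m ⟨⟨x, hx⟩, _⟩
      exact hx.elim) (Subcomplex.isInitialBot.hom_ext _ _)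
  exact ⟨h', a, b⟩

/-- A strong version: the section and the fibrewise homotopy. -/
theorem exists_fibrewise {E B : SSet.{u}} {p : E ⟶ B} [Fibration p] [IsFibrant E] (h : HoEq p) :
    ∃ (s : B ⟶ E) (H : E ⊗ Δ[1] ⟶ E), s ≫ p = 𝟙 B ∧ SSet.ι₀ ≫ H = p ≫ s ∧ SSet.ι₁ ≫ H = 𝟙 E ∧
      H ≫ p = fst _ _ ≫ p := by
  obtain ⟨g, hg₁, hg₂⟩ := h
  obtain ⟨K, K0, K1⟩ := htpy_elim hg₁
  obtain ⟨G, G0, G1⟩ := htpy_elim hg₂
  obtain ⟨h', hp', h0'⟩ := path_lift p G g G0.symm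
  have hs : (SSet.ι₁ ≫ h') ≫ p = 𝟙 B := by rw [Category.assoc, hp', G1]
  obtain ⟨s, hsd⟩ : ∃ s, s = SSet.ι₁ ≫ h' := ⟨_, rfl⟩
  rw [← hsd] at hs
  obtain ⟨H₁, H₁0, H₁1, -⟩ := horn_edge (terminal.from E) (p ▷ Δ[1] ≫ h') K (terminal.from _)
    (by rw [← Category.assoc, ι₀_nat, Category.assoc, h0', K0]) (Subsingleton.elim _ _)
    (Subsingleton.elim _ _)
  rw [← Category.assoc, ι₁_nat, Category.assoc, ← hsd] at H₁0
  rw [K1] at H₁1
  obtain ⟨H, H0, H1, Hp⟩ := horn_edge p (H₁ ≫ p ≫ s) H₁ (E ◁ stdSimplex.{u}.σ (1 : Fin 2) ≫ H₁ ≫ p)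
    (by
      rw [← Category.assoc, H₁0, Category.assoc, ← Category.assoc s, hs, Category.id_comp])
    (by
      rw [← Category.assoc, edge_two, Category.id_comp, Category.assoc, Category.assoc, hs,
        Category.comp_id])
    (by
      rw [← Category.assoc, edge_one, Category.id_comp])
  refine ⟨s, H, hs, ?_, ?_, ?_⟩
  · rw [H0, ← Category.assoc, H₁1, Category.id_comp]
  · rw [H1, H₁1]
  · rw [Hp, ← Category.assoc, collapse, Category.assoc, ← Category.assoc SSet.ι₁ H₁, H₁1,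
      Category.id_comp]

/-- A fibration with a section and a fibrewise homotopy is a trivial fibration. -/
theorem lift_of_fibrewise {E B : SSet.{u}} {p : E ⟶ B} [Fibration p] {s : B ⟶ E}
    {H : E ⊗ Δ[1] ⟶ E} (hs : s ≫ p = 𝟙 B) (H0 : SSet.ι₀ ≫ H = p ≫ s) (H1 : SSet.ι₁ ≫ H = 𝟙 E)
    (Hp : H ≫ p = fst _ _ ≫ p) {X : SSet.{u}} (A : X.Subcomplex) : HasLiftingProperty A.ι p := by
  constructor
  intro u v sq
  obtain ⟨h', hp', h0', hk⟩ := rel_path p A (fst _ _ ≫ v) (v ≫ s) (u ▷ Δ[1] ≫ H)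
    (by rw [Category.assoc, hs, Category.comp_id, ι₀_fst_assoc])
    (by rw [Category.assoc, Hp, whiskerRight_fst_assoc, whiskerRight_fst_assoc, sq.w])
    (by rw [← Category.assoc, ι₀_nat, Category.assoc, H0, ← Category.assoc, sq.w, Category.assoc])
  exact ⟨⟨{
    l := SSet.ι₁ ≫ h'
    fac_left := by
      rw [← Category.assoc, ← ι₁_nat, Category.assoc, hk, ← Category.assoc, ι₁_nat,
        Category.assoc, H1, Category.comp_id]
    fac_right := by rw [Category.assoc, hp', ι₁_fst_assoc] }⟩⟩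

/-- A Kan fibration between Kan complexes which is a homotopy equivalence is a trivial
fibration. -/
theorem trivFib_of_hoEq {E B : SSet.{0}} {p : E ⟶ B} (hE : SSet.KanComplex E)
    (_ : SSet.KanComplex B) (hp : KanFib p) (h : HoEq p) : TrivFib p := by
  have := fibration_of_kanFib hp
  obtain ⟨s, H, hs, H0, H1, Hp⟩ := exists_fibrewise h
  exact fun n => lift_of_fibrewise hs H0 H1 Hp _

end Pool.Agent.Helper45.FL2
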